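import Mathlib
import Pool.Agent.H932R3.CritMain

set_option autoImplicit false

/-!
# From general collisions to general points

The rank of a space of polynomials modulo the ideals `wIdeal x γ (fun _ => m)`, with `γ` fixed, is lower
semicontinuous in the roots `x`. So a rank which is attained for one collision is attained for distinct `x`.
-/

namespace Run7.h576.NS

open Polynomial Pool.Agent.H932R2 Pool.Agent.H932R3

variable {K : Type*} [Field K]

/-- The universal monic polynomial with the given roots. -/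
noncomputable def rhoU (K : Type*) [Field K] (r : ℕ) : (MvPolynomial (Fin r) K)[X] :=
  ∏ i, (X - C (MvPolynomial.X i))

theorem rhoU_monic (r : ℕ) : (rhoU K r).Monic :=
  monic_prod_of_monic _ _ fun i _ => monic_X_sub_C _

theorem rhoU_map {r : ℕ} (x : Fin r → K) :
    (rhoU K r).map (MvPolynomial.eval x) = rootPoly x := by
  simp [rhoU, rootPoly, Polynomial.map_prod]

/-- The coefficients of the remainders, as polynomials in the roots. -/
noncomputable def gen (r k e : ℕ) (h : K[X]) : MvPolynomial (Fin r) K :=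
  ((h.map MvPolynomial.C) %ₘ (rhoU K r) ^ k).coeff e

theorem eval_gen' {r : ℕ} (k e : ℕ) (h : K[X]) (x : Fin r → K) :
    MvPolynomial.eval x (gen r k e h) = (h %ₘ (rootPoly x) ^ k).coeff e := by
  rw [gen, ← Polynomial.coeff_map, Polynomial.map_modByMonic _ ((rhoU_monic r).pow k),
    Polynomial.map_pow, rhoU_map, Polynomial.map_map]
  congr 2
  have : (MvPolynomial.eval x).comp (MvPolynomial.C (R := K) (σ := Fin r)) = RingHom.id K := by
    ext a
    simp
  rw [this, Polynomial.map_id]

/-- The conditions, as a linear map. -/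
noncomputable def cond (r m : ℕ) (x : Fin r → K) (γ : K[X]) :
    K[X][X] →ₗ[K] (Fin m × Fin (r * m) → K) where
  toFun f p := (((sh 0 γ f).coeff p.1) %ₘ (rootPoly x) ^ (m - p.1)).coeff p.2
  map_add' f g := by
    ext p
    simp [Polynomial.add_modByMonic]
  map_smul' a f := by
    ext p
    have h : sh 0 γ (a • f) = a • sh 0 γ f := by
      have h1 : a • f = C (C a) * f := by
        rw [Algebra.smul_def]
        rfl
      have h2 : a • sh 0 γ f = C (C a) * sh 0 γ f := by
        rw [Algebra.smul_def]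
        rfl
      rw [h1, h2, map_mul, sh_C, C_comp]
    simp only [h, coeff_smul, RingHom.id_apply, Pi.smul_apply, smul_eq_mul]
    rw [Polynomial.smul_modByMonic, coeff_smul, smul_eq_mul]

theorem prodPoly_eq {r : ℕ} (x : Fin r → K) (m l : ℕ) :
    prodPoly x (fun _ => m) l = rootPoly x ^ (m - l) := by
  unfold prodPoly rootPoly
  rw [Finset.prod_pow]

theorem mem_wIdeal_iff_cond {r m : ℕ} {x : Fin r → K} {γ : K[X]} {f : K[X][X]} :
    f ∈ wIdeal x γ (fun _ => m) ↔ cond r m x γ f = 0 := by
  rw [mem_wIdeal]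
  have hmon : ∀ k, (rootPoly x ^ k).Monic := fun k => (rootPoly_monic x).pow k
  constructor
  · intro h
    ext ⟨l, e⟩
    show (((sh 0 γ f).coeff l) %ₘ (rootPoly x) ^ (m - l)).coeff e = 0
    have h1 := h l
    rw [prodPoly_eq, ← Polynomial.modByMonic_eq_zero_iff_dvd (hmon _)] at h1
    rw [h1, coeff_zero]
  · intro h l
    rw [prodPoly_eq, ← Polynomial.modByMonic_eq_zero_iff_dvd (hmon _)]
    rcases Nat.lt_or_ge l m with hl | hl
    · ext e
      rw [coeff_zero]
      rcases Nat.lt_or_ge e (r * m) with he | he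
      · exact congrFun h (⟨l, hl⟩, ⟨e, he⟩)
      · refine coeff_eq_zero_of_degree_lt (lt_of_lt_of_le
          (Polynomial.degree_modByMonic_lt _ (hmon _)) ?_)
        rw [Polynomial.degree_eq_natDegree (hmon _).ne_zero, Polynomial.natDegree_pow,
          rootPoly_natDegree]
        have : (m - l) * r ≤ e := by
          calc (m - l) * r ≤ m * r := Nat.mul_le_mul_right _ (Nat.sub_le _ _)
            _ = r * m := mul_comm _ _
            _ ≤ e := he
        exact_mod_cast this
    · rw [Nat.sub_eq_zero_of_le hl, pow_zero, Polynomial.modByMonic_one]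

/-- Semicontinuity of the rank in the roots. -/
theorem semi_open {r m n : ℕ} {x0 : Fin r → K} {γ : K[X]} {T : Set (ℕ × ℕ)}
    (h : RkI (wIdeal x0 γ fun _ => m) T n) :
    ∃ F : MvPolynomial (Fin r) K, F ≠ 0 ∧ ∀ x, MvPolynomial.eval x F ≠ 0 →
      RkI (wIdeal x γ fun _ => m) T n := by
  classical
  obtain ⟨v, hv, hli⟩ := h
  let L : (Fin r → K) → (Fin n → K) →ₗ[K] (Fin m × Fin (r * m) → K) := fun x =>
    (cond r m x γ).comp (Fintype.linearCombination K v)
  have hL : ∀ x (a : Fin n → K), L x a = cond r m x γ (∑ i, a i • v i) := fun x a => rfl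
  have hker : LinearMap.ker (L x0) = ⊥ := by
    rw [LinearMap.ker_eq_bot']
    intro a ha
    rw [hL, ← mem_wIdeal_iff_cond] at ha
    exact funext (hli a ha)
  obtain ⟨G, hG⟩ := LinearMap.exists_leftInverse_of_injective (L x0) hker
  let Gen : Fin m × Fin (r * m) → Fin n → MvPolynomial (Fin r) K := fun p i =>
    gen r (m - p.1) p.2 ((sh 0 γ (v i)).coeff p.1)
  have hGen : ∀ x p i, MvPolynomial.eval x (Gen p i) = L x (Pi.single i 1) p := by
    intro x p i
    rw [hL]
    have h1 : ∑ j, (Pi.single i 1 : Fin n → K) j • v j = v i := by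
      rw [Finset.sum_eq_single i]
      · simp
      · intro j _ hj
        rw [Pi.single_eq_of_ne hj, zero_smul]
      · intro h
        exact absurd (Finset.mem_univ i) h
    rw [h1]
    exact eval_gen' _ _ _ _
  let Mx : Matrix (Fin n) (Fin n) (MvPolynomial (Fin r) K) := fun k i =>
    ∑ p, MvPolynomial.C (G (Pi.single p 1) k) * Gen p i
  have hMx : ∀ x k i, MvPolynomial.eval x (Mx k i) = G (L x (Pi.single i 1)) k := by
    intro x k i
    show MvPolynomial.eval x (∑ p, MvPolynomial.C (G (Pi.single p 1) k) * Gen p i) = _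
    rw [map_sum]
    have h1 : L x (Pi.single i 1) = ∑ p, (L x (Pi.single i 1) p) • (Pi.single p 1 : _ → K) := by
      ext q
      simp [Finset.sum_apply, Pi.single_apply]
    conv_rhs => rw [h1]
    rw [map_sum, Finset.sum_apply]
    refine Finset.sum_congr rfl fun p _ => ?_
    rw [map_mul, MvPolynomial.eval_C, hGen, map_smul, Pi.smul_apply, smul_eq_mul, mul_comm]
  have hdet : ∀ x, MvPolynomial.eval x Mx.det =
      (Matrix.of fun k i => G (L x (Pi.single i 1)) k).det := by
    intro x
    rw [RingHom.map_det]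
    congr 1
    ext k i
    exact hMx x k i
  refine ⟨Mx.det, ?_, fun x hP => ⟨v, hv, fun a ha => ?_⟩⟩
  · intro h0
    have h1 := hdet x0
    rw [h0, map_zero] at h1
    have h2 : (Matrix.of fun k i => G (L x0 (Pi.single i 1)) k) = (1 : Matrix (Fin n) (Fin n) K) := by
      ext k i
      have h3 : G (L x0 (Pi.single i 1)) = Pi.single i 1 :=
        LinearMap.congr_fun hG (Pi.single i 1)
      rw [Matrix.of_apply, h3, Matrix.one_apply, Pi.single_apply]
    rw [h2, Matrix.det_one] at h1
    exact zero_ne_one h1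
  · rw [hdet] at hP
    rw [mem_wIdeal_iff_cond, ← hL] at ha
    have h1 : (Matrix.of fun k i => G (L x (Pi.single i 1)) k).mulVec a = 0 := by
      ext k
      rw [Matrix.mulVec, dotProduct, Pi.zero_apply]
      have h2 : a = ∑ i, a i • (Pi.single i 1 : Fin n → K) := by
        ext q
        simp [Finset.sum_apply, Pi.single_apply]
      have h3 : G (L x a) k = ∑ i, a i * G (L x (Pi.single i 1)) k := by
        conv_lhs => rw [h2]
        rw [map_sum, map_sum, Finset.sum_apply]
        refine Finset.sum_congr rfl fun i _ => ?_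
        rw [map_smul, map_smul, Pi.smul_apply, smul_eq_mul]
      rw [ha, map_zero, Pi.zero_apply] at h3
      rw [h3]
      exact Finset.sum_congr rfl fun i _ => mul_comm _ _
    exact fun i => congrFun (Matrix.eq_zero_of_mulVec_eq_zero hP h1) i

/-- `wIdeal` is contained in the ideal `(y - γ, g) ^ m`. -/
theorem wIdeal_le_cIdeal {r : ℕ} (x : Fin r → K) (γ : K[X]) (m : ℕ) :
    wIdeal x γ (fun _ => m) ≤ cIdeal x γ m := by
  intro f hf
  rw [mem_wIdeal] at hf
  have h0 := sh_sh 0 γ f
  have h1 : ∀ g : K[X][X], sh (-0) (-(γ.comp (X + C 0))) g = ∑ l ∈ g.support, C (g.coeff l) * (X - C γ) ^ l := by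
    intro g
    conv_lhs => rw [g.as_sum_support_C_mul_X_pow]
    rw [map_sum]
    refine Finset.sum_congr rfl fun l _ => ?_
    rw [map_mul, map_pow, sh_C, sh_X]
    simp [sub_eq_add_neg]
  rw [h1] at h0
  rw [← h0]
  refine Ideal.sum_mem _ fun l _ => ?_
  have h2 := hf l
  rw [prodPoly_eq] at h2
  obtain ⟨t, ht⟩ := h2
  rw [ht]
  have ha : (X - C γ : K[X][X]) ∈ (Ideal.span {X - C γ, C (rootPoly x)} : Ideal K[X][X]) :=
    Ideal.subset_span (Or.inl rfl)
  have hb : (C (rootPoly x) : K[X][X]) ∈ (Ideal.span {X - C γ, C (rootPoly x)} : Ideal K[X][X]) :=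
    Ideal.subset_span (Or.inr rfl)
  have h3 : (C (rootPoly x) ^ (m - l) * (X - C γ) ^ l : K[X][X]) ∈
      (Ideal.span {X - C γ, C (rootPoly x)} : Ideal K[X][X]) ^ (m - l + l) := by
    rw [Ideal.IsTwoSided.pow_add]
    exact Ideal.mul_mem_mul (Ideal.pow_mem_pow hb _) (Ideal.pow_mem_pow ha _)
  have h4 := Ideal.pow_le_pow_right (show m ≤ m - l + l by omega) h3
  have h5 : C (rootPoly x ^ (m - l) * t) * (X - C γ) ^ l =
      C t * (C (rootPoly x) ^ (m - l) * (X - C γ) ^ l) := by
    rw [C_mul, C_pow]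
    ring
  rw [h5]
  exact Ideal.mul_mem_left _ _ h4

/-- **From one collision to distinct roots.** -/
theorem semi [Infinite K] {r m n : ℕ} {x0 : Fin r → K} {γ : K[X]} {T : Set (ℕ × ℕ)}
    (h : RkI (cIdeal x0 γ m) T n) :
    RkS (wFam {x : Fin r → K | Function.Injective x} fun _ => m) T n := by
  classical
  obtain ⟨F, hF, hF'⟩ := semi_open (h.anti (wIdeal_le_cIdeal x0 γ m))
  let D : MvPolynomial (Fin r) K := ∏ p ∈ (Finset.univ : Finset (Fin r × Fin r)).filter
    (fun p => p.1 ≠ p.2), (MvPolynomial.X p.1 - MvPolynomial.X p.2)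
  have hD : D ≠ 0 := by
    refine Finset.prod_ne_zero_iff.2 fun p hp => ?_
    rw [Finset.mem_filter] at hp
    intro h0
    exact hp.2 (MvPolynomial.X_injective (sub_eq_zero.1 h0))
  obtain ⟨x, hx⟩ : ∃ x : Fin r → K, MvPolynomial.eval x (F * D) ≠ 0 := by
    by_contra hcon
    push Not at hcon
    exact mul_ne_zero hF hD (MvPolynomial.funext fun x => by rw [hcon x, map_zero])
  rw [map_mul] at hx
  refine ⟨_, ⟨x, fun a b hab => ?_, γ, rfl⟩, hF' x (left_ne_zero_of_mul hx)⟩
  by_contra hne
  refine right_ne_zero_of_mul hx ?_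
  show MvPolynomial.eval x D = 0
  rw [map_prod]
  refine Finset.prod_eq_zero (i := (a, b)) (Finset.mem_filter.2 ⟨Finset.mem_univ _, hne⟩) ?_
  simp [hab]

end Run7.h576.NS
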