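import Mathlib
import Pool.Agent.Run7.h576.NS.Semi
import Pool.Agent.H932R3.Collide

set_option autoImplicit false

/-!
# From the dimension formula for general collisions to the dimension formula for general points
-/

namespace Run7.h576.NS

open Polynomial Pool.Agent.H932R2 Pool.Agent.H932R3

variable {K : Type*} [Field K]

/-- The rank from the dimension of the kernel. -/
theorem rk_of_finrank {J : Ideal K[X][X]} {M : Finset (ℕ × ℕ)} {n : ℕ}
    (h : n + Module.finrank K ↥(mspan K (↑M : Set (ℕ × ℕ)) ⊓ Submodule.restrictScalars K J) =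
      M.card) : RkI J (↑M : Set (ℕ × ℕ)) n := by
  classical
  let φ : (Fin M.card → K) →ₗ[K] (K[X][X] ⧸ Submodule.restrictScalars K J) :=
    (Submodule.mkQ _).comp (coordMap K M)
  have hφ : ∀ a, φ a = Submodule.Quotient.mk (coordMap K M a) := fun a => rfl
  have hker : Submodule.map (coordMap K M) (LinearMap.ker φ) =
      mspan K (↑M : Set (ℕ × ℕ)) ⊓ Submodule.restrictScalars K J := by
    ext f
    constructor
    · rintro ⟨a, ha, rfl⟩
      have ha' : φ a = 0 := ha
      rw [hφ, Submodule.Quotient.mk_eq_zero] at ha'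
      exact ⟨(mem_mspan_iff M _).2 ⟨a, rfl⟩, ha'⟩
    · rintro ⟨h1, h2⟩
      obtain ⟨a, rfl⟩ := (mem_mspan_iff M _).1 h1
      refine ⟨a, ?_, rfl⟩
      show φ a = 0
      rw [hφ, Submodule.Quotient.mk_eq_zero]
      exact h2
  have h1 : Module.finrank K (LinearMap.ker φ) =
      Module.finrank K ↥(mspan K (↑M : Set (ℕ × ℕ)) ⊓ Submodule.restrictScalars K J) := by
    rw [← hker]
    exact (Submodule.equivMapOfInjective _ (coordMap_inj M) _).finrank_eq
  have h2 := LinearMap.finrank_range_add_finrank_ker φ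
  rw [Module.finrank_fin_fun] at h2
  have h3 : Module.finrank K (LinearMap.range φ) = n := by omega
  let b := Module.finBasisOfFinrankEq K (LinearMap.range φ) h3
  choose a ha using fun i => (b i).2
  refine ⟨fun i => coordMap K M (a i), fun i => (mem_mspan_iff M _).2 ⟨a i, rfl⟩,
    fun c hc i => ?_⟩
  have h4 : ∑ i, c i • b i = 0 := by
    apply Subtype.ext
    rw [AddSubmonoidClass.coe_finsetSum]
    have h5 : ∀ i, ((c i • b i : LinearMap.range φ) : K[X][X] ⧸ Submodule.restrictScalars K J) =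
        φ (c i • a i) := by
      intro i
      rw [map_smul, ha i]
      rfl
    simp only [h5]
    rw [← map_sum, hφ, ZeroMemClass.coe_zero, Submodule.Quotient.mk_eq_zero, map_sum]
    simp only [map_smul]
    exact hc
  exact Fintype.linearIndependent_iff.1 b.linearIndependent c h4 i

theorem Tfin_card (d : ℕ) : (Tfin d).card = (d + 2).choose 2 := by
  have h4 := card_Tfin d
  have h5 : (d + 2).choose 2 * 2 = (d + 2) * (d + 1) := by
    rw [Nat.choose_two_right, Nat.div_mul_cancel (Nat.even_mul_pred_self _).two_dvd]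
    rfl
  linarith

theorem jet_rk {r m : ℕ} {c : K} {a : Fin r → K} {d n : ℕ} (h : JetDim r m c a d)
    (hn : n + ((d + 2).choose 2 - r * (m + 1).choose 2) = (d + 2).choose 2) :
    RkI (jetIdeal m c a) (Tset d) n := by
  rw [← coe_Tfin]
  refine rk_of_finrank ?_
  rw [Tfin_card]
  unfold JetDim at h
  rw [finrank_forms (d := d) _ (Submodule.restrictScalars K (jetIdeal m c a)) fun F _ => Iff.rfl] at h
  rw [coe_Tfin, h]
  exact hn

theorem jet_rkS [Infinite K] {r m : ℕ} {c : K} {a : Fin r → K} {d n : ℕ} (h : JetDim r m c a d)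
    (hn : n + ((d + 2).choose 2 - r * (m + 1).choose 2) = (d + 2).choose 2) :
    RkS (wFam {x : Fin r → K | Function.Injective x} fun _ => m) (Tset d) n := by
  have h1 := jet_rk h hn
  rw [← vIdeal_jet] at h1
  simp only [vIdeal, iInf_const] at h1
  exact semi h1

/-- The forms of degree `d` which vanish to order `m` at the points `(P i 0 : P i 1 : 1)`. -/
noncomputable def fat {L : Type*} [Field L] {r : ℕ} (P : Fin r → Fin 2 → L) (m d : ℕ) :
    Submodule L (MvPolynomial (Fin 3) L) :=
  MvPolynomial.homogeneousSubmodule (Fin 3) L d ⊓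
    Submodule.restrictScalars L
      (⨅ i : Fin r,
        (Ideal.span
          ({MvPolynomial.X 0 - MvPolynomial.C (P i 0) * MvPolynomial.X 2,
            MvPolynomial.X 1 - MvPolynomial.C (P i 1) * MvPolynomial.X 2} :
            Set (MvPolynomial (Fin 3) L))) ^ m)

/-- **From general collisions to general points.** -/
theorem points_of_coll {r m : ℕ} (hr : 0 < r) (hm : 0 < m)
    (h : ∃ F : MvPolynomial (Fin (r + 1)) ℚ, F ≠ 0 ∧
      ∀ (c : ℚ) (a : Fin r → ℚ), MvPolynomial.eval (Fin.cons c a : Fin (r + 1) → ℚ) F ≠ 0 →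
        ∀ d : ℕ, JetDim r m c a d)
    {L : Type*} [Field L] [CharZero L] :
    ∃ F : MvPolynomial (Fin r × Fin 2) ℚ, F ≠ 0 ∧ ∀ P : Fin r → Fin 2 → L,
      MvPolynomial.aeval (fun ij : Fin r × Fin 2 => P ij.1 ij.2) F ≠ 0 →
      ∀ d : ℕ, Module.finrank L (fat P m d) = Nat.choose (d + 2) 2 - r * Nat.choose (m + 1) 2 := by
  classical
  obtain ⟨F0, hF0, hF0'⟩ := h
  obtain ⟨x, hx⟩ : ∃ x : Fin (r + 1) → ℚ, MvPolynomial.eval x F0 ≠ 0 := by
    by_contra hcon
    push Not at hcon
    exact hF0 (MvPolynomial.funext fun x => by rw [hcon x, map_zero])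
  have hJ : ∀ d, JetDim r m (x 0) (Fin.tail x) d :=
    hF0' (x 0) (Fin.tail x) (by rwa [Fin.cons_self_tail])
  obtain ⟨C, hC⟩ : ∃ C, C = r * (m + 1).choose 2 := ⟨_, rfl⟩
  have hC0 : 0 < C := by
    rw [hC]
    exact Nat.mul_pos hr (Nat.choose_pos (by omega))
  have hbig : ∀ d : ℕ, d < (d + 2).choose 2 := by
    intro d
    rw [Nat.choose_two_right, ← Nat.add_one_le_iff, Nat.le_div_iff_mul_le (by norm_num)]
    rw [show d + 2 - 1 = d + 1 by omega]
    nlinarith
  obtain ⟨e, he⟩ : ∃ e, e = Nat.findGreatest (fun d => (d + 2).choose 2 ≤ C) C := ⟨_, rfl⟩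
  have he1 : (e + 2).choose 2 ≤ C := by
    rw [he]
    exact Nat.findGreatest_spec (P := fun d => (d + 2).choose 2 ≤ C) (m := 0) (Nat.zero_le _)
      (by show (0 + 2).choose 2 ≤ C; simp; omega)
  have he2 : C ≤ (e + 1 + 2).choose 2 := by
    by_contra hcon
    have h4 : (e + 1 + 2).choose 2 ≤ C := (not_le.1 hcon).le
    have h5 : e + 1 ≤ Nat.findGreatest (fun d => (d + 2).choose 2 ≤ C) C :=
      Nat.le_findGreatest ((hbig _).le.trans h4) h4
    omega
  have h1 : RkS (wFam {x : Fin r → ℚ | Function.Injective x} fun _ => m) (Tset e) (Tfin e).card := by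
    refine jet_rkS (hJ e) ?_
    rw [Tfin_card, ← hC]
    omega
  have h2 : RkS (wFam {x : Fin r → ℚ | Function.Injective x} fun _ => m) (Tset (e + 1))
      (∑ _i : Fin r, (m + 1).choose 2) := by
    refine jet_rkS (hJ (e + 1)) ?_
    rw [Finset.sum_const, Finset.card_univ, Fintype.card_fin, smul_eq_mul, ← hC]
    omega
  obtain ⟨F, hF, hF'⟩ := points_two (L := L) h1 h2
  refine ⟨F, hF, fun P hP d => ?_⟩
  have h3 := hF' P hP d (by omega)
  rw [Finset.sum_const, Finset.card_univ, Fintype.card_fin, smul_eq_mul] at h3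
  exact h3

end Run7.h576.NS
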