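import Mathlib
import Pool.Agent.Run7.h576.NS.Gen
import Pool.Agent.Run7.h968.Fam

set_option autoImplicit false

/-!
# `36 q ^ 2 + 4` general points, `q` odd: all multiplicities and all degrees
-/

namespace Run7.h576.NS

open Polynomial Pool.Agent.H932R2 Pool.Agent.H932R3

/-- **General points.** -/
theorem points_fam {q : ℕ} (hq : Odd q) {m : ℕ} (hm : 0 < m) (L : Type*) [Field L] [CharZero L] :
    ∃ F : MvPolynomial (Fin (36 * q ^ 2 + 4) × Fin 2) ℚ, F ≠ 0 ∧
      ∀ P : Fin (36 * q ^ 2 + 4) → Fin 2 → L,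
        MvPolynomial.aeval (fun ij : Fin (36 * q ^ 2 + 4) × Fin 2 => P ij.1 ij.2) F ≠ 0 →
        ∀ d : ℕ, Module.finrank L (fat P m d) =
          Nat.choose (d + 2) 2 - (36 * q ^ 2 + 4) * Nat.choose (m + 1) 2 :=
  points_of_coll (by positivity) hm (Pool.Agent.Run7.h968.fam hq m ℚ)

/-- **Generic points**, all multiplicities at once. -/
theorem points_generic {q : ℕ} (hq : Odd q) {L : Type*} [Field L] [CharZero L]
    {P : Fin (36 * q ^ 2 + 4) → Fin 2 → L}
    (hP : AlgebraicIndependent ℚ fun ij : Fin (36 * q ^ 2 + 4) × Fin 2 => P ij.1 ij.2)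
    {m : ℕ} (hm : 0 < m) (d : ℕ) :
    Module.finrank L (fat P m d) =
      Nat.choose (d + 2) 2 - (36 * q ^ 2 + 4) * Nat.choose (m + 1) 2 := by
  obtain ⟨F, hF, hF'⟩ := points_fam hq hm L
  refine hF' P (fun h0 => hF ?_) d
  exact (injective_iff_map_eq_zero _).1 hP F h0

end Run7.h576.NS
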